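import Mathlib
import Pool.Agent.Lib.MP_fdde87_co_PP.Iter

/-!
The cd-index inequality of Ehrenborg relative to the simplex is inherited by pyramids, prisms and
duals; in particular it holds for all posets obtained from simplicial spheres by these operations.
-/

set_option autoImplicit false

namespace Pool.Agent.Results.MP_fdde87_co.PyramidsPrismsDuals

open Pool.Agent.MPfdde87 Pool.Agent.MPfdde87PP

/-- If the inequality `φ_{u d v} - φ_{u c c v} ≥ ψ_{u d v} - ψ_{u c c v}` (`φ`, `ψ` the cd-indices
of the poset and of the simplex) holds for a finite poset of rank `d + 1`, then it holds for the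
pyramid and the prism over this poset and for the dual poset. It holds for all posets which arise
from the face posets of simplicial homology spheres, with a top element adjoined, by any number of
pyramids, prisms and passages to the dual. -/
theorem result :
    (∀ (L : Type) [PartialOrder L] [Fintype L] (r : L → ℕ) (o t : L) (d : ℕ),
      Ranked r o t (d + 1) → Ehrenborg d (pIndex r o t d) (simplexIndex d) →
        Ehrenborg (d + 1) (pIndex (rPyr r) ((o, false) : Pyr L) (t, true) (d + 1))
          (simplexIndex (d + 1)) ∧
        (∀ ht : t ≠ o, Ehrenborg (d + 1)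
          (pIndex (rPrism o r) (pbot o) (pmk ⟨t, ht⟩ .full) (d + 1)) (simplexIndex (d + 1))) ∧
        Ehrenborg d (pIndex (rDual (d + 1) r) (OrderDual.toDual t) (OrderDual.toDual o) d)
          (simplexIndex d)) ∧
    ∀ (d : ℕ) (L : Type) [PartialOrder L] [Fintype L] (r : L → ℕ) (o t : L),
      Iterated d L r o t → Ehrenborg d (pIndex r o t d) (simplexIndex d) :=
  ⟨fun _ _ _ _ _ _ _ hr h => ⟨pyramid hr h, fun ht => prism hr ht h, dual hr h⟩,
    fun _ _ _ _ _ _ _ h => h.good.2⟩

end Pool.Agent.Results.MP_fdde87_co.PyramidsPrismsDuals
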