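import Mathlib
import Pool.Agent.Lib.MP_fdde87_co.Defs
import Pool.Agent.Lib.MP_fdde87_co.Main

/-!
The cd-index inequality relative to the simplex, for all simplicial spheres.
-/

namespace Pool.Agent.Results.MP_fdde87_co.SimplicialSpheres

open Pool.Agent.MPfdde87

/-- For every simplicial complex `Δ` that is a homology sphere of dimension `d - 1` over the field
with two elements, the cd-indices of `Δ` and of the boundary of the `d`-simplex exist and are
unique, and for all cd-words `u`, `v` with `deg u + deg v = d - 2` the inequality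
`φ_{u d v}(Δ) - φ_{u c c v}(Δ) ≥ φ_{u d v}(simplex) - φ_{u c c v}(simplex)` holds. -/
theorem result (d : ℕ) {V : Type*} [Fintype V] [DecidableEq V] (Δ : Finset (Finset V))
    (hΔ : IsHomologySphere d Δ) :
    (∃! φ, IsCDIndex d Δ φ) ∧ (∃! ψ, IsCDIndex d (simplexBoundary d) ψ) ∧
    ∀ φ ψ, IsCDIndex d Δ φ → IsCDIndex d (simplexBoundary d) ψ →
      ∀ u v : List Letter, degW u + degW v + 2 = d →
        φ (u ++ [Letter.d] ++ v) - φ (u ++ [Letter.c, Letter.c] ++ v) ≥
          ψ (u ++ [Letter.d] ++ v) - ψ (u ++ [Letter.c, Letter.c] ++ v) := by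
  refine ⟨?_, ?_, ?_⟩
  · have h := isCDIndex_phiOf d Δ hΔ.empty_mem hΔ.down_closed (sphere_symm hΔ)
    exact ⟨_, h, fun φ hφ => isCDIndex_unique d Δ _ _ hφ h⟩
  · have h := isCDIndex_phiOf d _ (simplexBoundary_empty d) (simplexBoundary_down d)
      (simplexBoundary_symm d)
    exact ⟨_, h, fun φ hφ => isCDIndex_unique d _ _ _ hφ h⟩
  · intro φ ψ hφ hψ u v huv
    exact sphere_inequality hΔ φ ψ hφ hψ u v huv

end Pool.Agent.Results.MP_fdde87_co.SimplicialSpheres
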